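import Pool.Agent.DLN.Main

/-! # Discretely Lindelof complements of the diagonal (MP_c2fbea_gt, Q1 and Q2)

There is a model of `ZFC` with a Tychonoff space `X` such that the complement of the diagonal of `X × X` is a
discretely Lindelof Tychonoff space, `X` is not Lindelof, and no continuous bijection maps `X` onto a
Hausdorff space with a countable base. (Finite conditions collapse `2^ω` and add a generic matrix of zeros
and ones; the rows are indexed by the elements of a product of regular cardinals `κ_l`, and a column
indexed by `h` is free for the rows which are not below `h` modulo finite sets.) -/

namespace Pool.Agent.Results.MP_c2fbea_gt.DiscretelyLindelof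

open STP CPI DLN

theorem result : ∃ (N : Type 1) (E : N → N → Prop), ZFC E ∧ NegDL E := DLN.main

end Pool.Agent.Results.MP_c2fbea_gt.DiscretelyLindelof
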